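import Pool.Agent.Helper56.RZ.GoalsC

/-!
# Project RZ2 (MP_f32c9c_an), packet RC: the recursion
-/

set_option autoImplicit false

namespace Pool.Agent.Helper18.RZ

open Pool.Agent.Helper56.RZ

theorem rc : StmtRC := by
  intro X _ K D S U h x y
  have hTU : D.T y * U y = U y := by
    rw [← h.sum, add_mul, h.FG, h.GG, zero_add]
  have h1 : U y = D.B (D.f y) * U (D.f y) * D.A y := by
    rw [mul_assoc, ← h.AG, ← mul_assoc, D.BA, hTU]
  have h2 : D.A x * S x = S (D.f x) * (D.A x * S x) := by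
    rw [h.AF, ← mul_assoc, h.FF]
  have h3 : D.B (D.f y) * U (D.f y) = D.B (D.f y) * U (D.f y) * U (D.f y) := by
    rw [mul_assoc, h.GG]
  have h4 : U y * S x = (D.B (D.f y) * U (D.f y)) * (U (D.f y) * S (D.f x)) * (D.A x * S x) +
      (D.B (D.f y) * U (D.f y)) * (D.A y - D.A x) * S x := by
    calc U y * S x = D.B (D.f y) * U (D.f y) * D.A y * S x := by rw [← h1]
      _ = (D.B (D.f y) * U (D.f y)) * (D.A x * S x) +
          (D.B (D.f y) * U (D.f y)) * (D.A y - D.A x) * S x := by
            rw [mul_sub, sub_mul, ← mul_assoc _ (D.A x) (S x)]; abel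
      _ = (D.B (D.f y) * U (D.f y) * U (D.f y)) * (S (D.f x) * (D.A x * S x)) +
          (D.B (D.f y) * U (D.f y)) * (D.A y - D.A x) * S x := by rw [← h2, ← h3]
      _ = _ := by simp only [mul_assoc]
  rw [h4]
  refine (norm_add_le _ _).trans (add_le_add ?_ ?_)
  · exact (norm_mul_le _ _).trans (mul_le_mul_of_nonneg_right (norm_mul_le _ _) (norm_nonneg _))
  · exact (norm_mul_le _ _).trans (mul_le_mul_of_nonneg_right (norm_mul_le _ _) (norm_nonneg _))

end Pool.Agent.Helper18.RZ
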